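import Pool.Agent.N166.HI.Core

/-!
# Lefschetz operators on groups with two gradings: all weights
-/

set_option autoImplicit false

namespace Pool.Agent.N166.HI

variable {M : Type*} [AddCommGroup M] [Module ℚ M]
variable {n : ℕ} {T : ℤ → Submodule ℚ M} {L : Module.End ℚ M} {p : ℤ → Module.End ℚ M}

namespace Core

variable (h : Core n T L p)
include h

lemma lowAν (ν I : ℕ) (hi : ∀ i : ℕ, i ≤ I → 2 * i ≤ n + ν →
      ∀ z ∈ T i, (L ^ (n + ν - 2 * i)) z = 0 → z = 0) :
    ∀ m : ℕ, m ≤ n → ∀ i : ℤ, i ≤ I → 2 * i < m + ν → ∀ z ∈ T i, p m z = z → z = 0 := by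
  intro m
  induction m using Nat.strong_induction_on with
  | _ m ih =>
    intro hm i hI him z hz hpz
    rcases lt_or_ge i 0 with hneg | hpos
    · exact h.neg i hneg z hz
    obtain ⟨i, rfl⟩ := Int.eq_ofNat_of_zero_le hpos
    have hy : (L ^ (n - m + 1)) z ∈ T ((i : ℤ) + (n - m + 1 : ℕ)) := h.powMem _ _ z hz
    have hpy : p ((m : ℤ) + 2 * (n - m + 1 : ℕ)) ((L ^ (n - m + 1)) z) = (L ^ (n - m + 1)) z := by
      rw [h.powComm, hpz]
    have hy0 : (L ^ (n - m + 1)) z = 0 := by
      rcases lt_or_ge m 2 with h2 | h2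
      · rw [← hpy]
        exact h.out _ (Or.inr (by push_cast [Nat.cast_sub hm]; omega)) _
      · obtain ⟨z', hz', hpz', hLz'⟩ := h.surj (m - 2) (by omega) ((i : ℤ) - 1)
          ((L ^ (n - m + 1)) z) (by
            convert hy using 2
            push_cast [Nat.cast_sub hm, Nat.cast_sub h2]
            ring) (by
            convert hpy using 2
            congr 1
            push_cast [Nat.cast_sub hm, Nat.cast_sub h2]
            ring)
        have := ih (m - 2) (by omega) (by omega) ((i : ℤ) - 1) (by omega) (by omega) z' hz' hpz'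
        rw [← hLz', this, map_zero]
    refine hi i (by omega) (by omega) z hz ?_
    have e : n + ν - 2 * i = (m + ν - 2 * i - 1) + (n - m + 1) := by omega
    rw [e, powSplit, hy0, map_zero]

/-- Injectivity in the codimensions `≤ I` gives the vanishing in the weights `> 2 i - ν`. -/
lemma vanishAν (ν I : ℕ) (hi : ∀ i : ℕ, i ≤ I → 2 * i ≤ n + ν →
      ∀ z ∈ T i, (L ^ (n + ν - 2 * i)) z = 0 → z = 0) (i m : ℤ) (hI : i ≤ I)
    (him : 2 * i < m + ν) (z : M) (hz : z ∈ T i) : p m z = 0 := by
  have hz' := h.pmem m i z hz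
  have hp := h.idem m z
  set y := p m z with hy
  clear_value y
  rcases lt_or_ge m 0 with h1 | h1
  · rw [← hp]; exact h.out m (Or.inl h1) y
  rcases lt_or_ge (2 * (n : ℤ)) m with h2 | h2
  · rw [← hp]; exact h.out m (Or.inr h2) y
  obtain ⟨m, rfl⟩ := Int.eq_ofNat_of_zero_le h1
  rcases le_or_gt m n with h3 | h3
  · exact h.lowAν ν I hi m h3 i hI him y hz' hp
  · have h4 : m ≤ 2 * n := by omega
    obtain ⟨x, hx, hpx, hLx⟩ := h.surj (2 * n - m) (by omega) (i - (m - n)) y (by
        convert hz' using 2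
        push_cast [Nat.cast_sub h4]
        ring) (by
        convert hp using 2
        congr 1
        push_cast [Nat.cast_sub h4]
        ring)
    have := h.lowAν ν I hi (2 * n - m) (by omega) (i - (m - n)) (by omega) (by
      push_cast [Nat.cast_sub h4]; omega) x hx hpx
    rw [← hLx, this, map_zero]

/-- The vanishing in one codimension gives the injectivity there. -/
lemma injν (ν i : ℕ) (hi : 2 * i ≤ n + ν)
    (hv : ∀ m : ℤ, 2 * (i : ℤ) < m + ν → ∀ z ∈ T i, p m z = 0) :
    ∀ z ∈ T i, (L ^ (n + ν - 2 * i)) z = 0 → z = 0 := by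
  intro z hz h0
  rw [h.sum z]
  refine Finset.sum_eq_zero fun m _ => ?_
  rcases lt_or_ge (2 * (i : ℤ)) (m + ν) with h1 | h1
  · exact hv m h1 z hz
  · refine h.inj m (by omega) i _ (h.pmem _ _ z hz) (h.idem _ z) ?_
    have e : n - m = (2 * i - ν - m) + (n + ν - 2 * i) := by omega
    rw [e, powSplit, ← h.powComm, h0, map_zero, map_zero]

/-- The vanishing in the codimension `i` and large weights reduces to smaller codimensions. -/
lemma dualν (ν : ℕ) (i : ℕ) (hi : n + ν < 2 * i)
    (hv : ∀ j : ℤ, j + i < n + ν → ∀ m : ℤ, 2 * j < m + ν → ∀ z ∈ T j, p m z = 0) (m : ℤ)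
    (him : 2 * (i : ℤ) < m + ν) (z : M) (hz : z ∈ T i) : p m z = 0 := by
  have hz' := h.pmem m i z hz
  have hp := h.idem m z
  set y := p m z with hy
  clear_value y
  rcases lt_or_ge m 0 with h1 | h1
  · rw [← hp]; exact h.out m (Or.inl h1) y
  rcases lt_or_ge (2 * (n : ℤ)) m with h2 | h2
  · rw [← hp]; exact h.out m (Or.inr h2) y
  obtain ⟨m, rfl⟩ := Int.eq_ofNat_of_zero_le h1
  have h4 : m ≤ 2 * n := by omega
  obtain ⟨x, hx, hpx, hLx⟩ := h.surj (2 * n - m) (by omega) ((i : ℤ) - (m - n)) y (by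
      convert hz' using 2
      push_cast [Nat.cast_sub h4]
      ring) (by
      convert hp using 2
      congr 1
      push_cast [Nat.cast_sub h4]
      ring)
  have := hv ((i : ℤ) - (m - n)) (by omega) ((2 * n - m : ℕ) : ℤ) (by
    push_cast [Nat.cast_sub h4]; omega) x hx
  rw [← hLx, ← hpx, this, map_zero]

lemma lowBν (ν : ℕ) (hs : ∀ i : ℕ, 2 * i ≤ n + ν → ∀ w ∈ T (n + ν - i), ∃ z ∈ T i,
      (L ^ (n + ν - 2 * i)) z = w) :
    ∀ i : ℕ, ∀ m : ℤ, m + ν < 2 * i → ∀ z ∈ T i, p m z = z → z = 0 := by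
  intro i
  induction i using Nat.strong_induction_on with
  | _ i ih =>
    intro m hmi z hz hpz
    rcases lt_or_ge m 0 with h1 | h1
    · rw [← hpz]; exact h.out m (Or.inl h1) z
    rcases lt_or_ge (2 * (n : ℤ)) m with h2 | h2
    · rw [← hpz]; exact h.out m (Or.inr h2) z
    rcases lt_or_ge n i with h0 | h0
    · exact h.top i (by exact_mod_cast h0) z hz
    obtain ⟨m, rfl⟩ := Int.eq_ofNat_of_zero_le h1
    rcases le_or_gt m n with h3 | h3
    · rcases le_or_gt (2 * i) (n + ν + 1) with h4 | h4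
      · have hi1 : 1 ≤ i := by omega
        have hw : (L ^ (n + ν + 1 - 2 * i)) z ∈ T ((n : ℤ) + ν - ((i - 1 : ℕ) : ℤ)) := by
          have := h.powMem (n + ν + 1 - 2 * i) i z hz
          convert this using 2
          push_cast [Nat.cast_sub h4, Nat.cast_sub hi1]
          ring
        obtain ⟨u, hu, hLu⟩ := hs (i - 1) (by omega) _ hw
        have hpw : p ((m : ℤ) + 2 * (n + ν + 1 - 2 * i : ℕ)) ((L ^ (n + ν + 1 - 2 * i)) z) =
            (L ^ (n + ν + 1 - 2 * i)) z := by
          rw [h.powComm, hpz]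
        have hw0 : (L ^ (n + ν + 1 - 2 * i)) z = 0 := by
          rw [← hpw, ← hLu]
          have e : ((m : ℤ) + 2 * (n + ν + 1 - 2 * i : ℕ)) =
              ((m : ℤ) - 2) + 2 * ((n + ν - 2 * (i - 1) : ℕ) : ℤ) := by
            have : n + ν - 2 * (i - 1) = (n + ν + 1 - 2 * i) + 1 := by omega
            rw [this]
            push_cast
            ring
          rw [e, h.powComm]
          have := ih (i - 1) (by omega) ((m : ℤ) - 2) (by omega) (p ((m : ℤ) - 2) u)
            (h.pmem _ _ u hu) (h.idem _ u)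
          rw [this, map_zero]
        refine h.inj m h3 i z hz hpz ?_
        have e : n - m = (2 * i - m - ν - 1) + (n + ν + 1 - 2 * i) := by omega
        rw [e, powSplit, hw0, map_zero]
      · obtain ⟨u, hu, hLu⟩ := hs (n + ν - i) (by omega) z (by
          convert hz using 2
          push_cast [Nat.cast_sub (show i ≤ n + ν by omega)]
          ring)
        rw [← hpz, ← hLu]
        have e : (m : ℤ) = ((m : ℤ) - 4 * i + 2 * n + 2 * ν) +
            2 * ((n + ν - 2 * (n + ν - i) : ℕ) : ℤ) := by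
          have : n + ν - 2 * (n + ν - i) = 2 * i - (n + ν) := by omega
          rw [this]
          push_cast [Nat.cast_sub (show n + ν ≤ 2 * i by omega)]
          ring
        rw [e, h.powComm]
        have := ih (n + ν - i) (by omega) ((m : ℤ) - 4 * i + 2 * n + 2 * ν) (by
          push_cast [Nat.cast_sub (show i ≤ n + ν by omega)]
          omega) (p ((m : ℤ) - 4 * i + 2 * n + 2 * ν) u) (h.pmem _ _ u hu) (h.idem _ u)
        rw [this, map_zero]
    · have h4 : m ≤ 2 * n := by omega
      obtain ⟨x, hx, hpx, hLx⟩ := h.surj (2 * n - m) (by omega) ((i : ℤ) - (m - n)) z (by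
          convert hz using 2
          push_cast [Nat.cast_sub h4]
          ring) (by
          convert hpz using 2
          congr 1
          push_cast [Nat.cast_sub h4]
          ring)
      have hx0 : x = 0 := by
        rcases lt_or_ge ((i : ℤ) - (m - n)) 0 with h5 | h5
        · exact h.neg _ h5 x hx
        · obtain ⟨j, hj⟩ := Int.eq_ofNat_of_zero_le h5
          have hx' : x ∈ T (j : ℤ) := by
            have e : (i : ℤ) - (m - n) = (j : ℤ) := hj
            rw [← e]; exact hx
          refine ih j (by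
            have : (j : ℤ) = (i : ℤ) - (m - n) := hj.symm
            omega) ((2 * n - m : ℕ) : ℤ) (by
            have : (j : ℤ) = (i : ℤ) - (m - n) := hj.symm
            omega) x hx' hpx
      rw [← hLx, hx0, map_zero]

/-- Surjectivity gives the vanishing in the weights `< 2 i - ν`. -/
lemma vanishBν (ν : ℕ) (hs : ∀ i : ℕ, 2 * i ≤ n + ν → ∀ w ∈ T (n + ν - i), ∃ z ∈ T i,
      (L ^ (n + ν - 2 * i)) z = w) (i m : ℤ) (him : m + ν < 2 * i) (z : M) (hz : z ∈ T i) :
    p m z = 0 := by
  have hz' := h.pmem m i z hz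
  have hp := h.idem m z
  rcases lt_or_ge i 0 with h1 | h1
  · exact h.neg i h1 _ hz'
  obtain ⟨i, rfl⟩ := Int.eq_ofNat_of_zero_le h1
  exact h.lowBν ν hs i m him _ hz' hp

/-- The vanishing in the weights `< 2 i - ν` gives the surjectivity. -/
lemma surjν (ν : ℕ) (hv : ∀ i m : ℤ, m + ν < 2 * i → ∀ z ∈ T i, p m z = 0) (i : ℕ)
    (hi : 2 * i ≤ n + ν) (w : M) (hw : w ∈ T (n + ν - i)) : ∃ z ∈ T i,
      (L ^ (n + ν - 2 * i)) z = w := by
  have hm : ∀ m ∈ Finset.range (2 * n + 1), ∃ z ∈ T i, (L ^ (n + ν - 2 * i)) z = p (m : ℤ) w := by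
    intro m hm
    rw [Finset.mem_range] at hm
    rcases lt_or_ge ((m : ℤ) + ν) (2 * ((n : ℤ) + ν - i)) with h1 | h1
    · exact ⟨0, (T _).zero_mem, by rw [map_zero, hv _ _ h1 w hw]⟩
    · have h4 : m ≤ 2 * n := by omega
      have h5 : n ≤ m := by omega
      obtain ⟨x, hx, -, hLx⟩ := h.surj (2 * n - m) (by omega) ((n : ℤ) + ν - i - (m - n))
        (p (m : ℤ) w) (by
          have := h.pmem m _ w hw
          convert this using 2
          push_cast [Nat.cast_sub h4]
          ring) (by
          have := h.idem m w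
          convert this using 2
          congr 1
          push_cast [Nat.cast_sub h4]
          ring)
      refine ⟨(L ^ (m - n - (n + ν - 2 * i))) x, ?_, ?_⟩
      · have h6 : n + ν - 2 * i ≤ m - n := by omega
        have := h.powMem (m - n - (n + ν - 2 * i)) _ x hx
        convert this using 2
        push_cast [Nat.cast_sub h6, Nat.cast_sub h5, Nat.cast_sub hi]
        ring
      · rw [← powSplit, ← hLx]
        congr 2
        omega
  choose! f hf1 hf2 using hm
  refine ⟨∑ m ∈ Finset.range (2 * n + 1), f m, Submodule.sum_mem _ hf1, ?_⟩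
  rw [map_sum, Finset.sum_congr rfl hf2]
  exact (h.sum w).symm

end Core

end Pool.Agent.N166.HI
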