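import Pool.Agent.Y107.SDDefs

/-!
# Chow-Kunneth decompositions satisfying hard Lefschetz for a given class: definitions
-/

set_option autoImplicit false

open CategoryTheory AlgebraicGeometry

universe u v w

namespace Pool.Agent.N166.LD

open Pool.Agent.H914 Pool.Agent.H914.VarClass Pool.Agent.H914.VarClass.Obj Pool.Agent.W492.BB
  Pool.Agent.W550.Corr Pool.Agent.TH133 Pool.Agent.Y107

variable {k : Type u} [Field k] {𝒱 : VarClass k} {C : TheoryData.{u, v, 0} 𝒱 ℚ} {X : 𝒱.Obj}
  {K : Type w} [Field K]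

/-- The family `π` is a Chow-Kunneth decomposition of `X` and satisfies hard Lefschetz for the
self-correspondence `L` (for instance the multiplication `C.mulCorr D` with a divisor class `D`) on
the level of Chow motives: `L` maps `h^n` to `h^(n+2)(1)`, and for `n ≤ d = dim X` the power
`L^(d-n)` is an isomorphism of `h^n` and `h^(2d-n)(d-n)`. -/
structure IsLefschetz (H : WeilTheoryData.{u, v, w} C K) (X : 𝒱.Obj) (L : C.A (X.prod X))
    (π : ℕ → C.A (X.prod X)) : Prop where
  ck : IsCK H X π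
  lef : MotivicLefschetz C L π

/-- The self-correspondence `c` has degree zero and commutes with `L`. -/
structure Commutes (C : TheoryData.{u, v, 0} 𝒱 ℚ) {X : 𝒱.Obj} (L c : C.A (X.prod X)) : Prop where
  deg : C.Deg X.dim c
  comm : C.comp c L = C.comp L c

/-- The self-correspondence `g` of degree zero commutes with `L` and has the diagonal entries `1`:
`π a ∘ g ∘ π a = π a` for all `a`. -/
structure IsRaising (C : TheoryData.{u, v, 0} 𝒱 ℚ) {X : 𝒱.Obj} (L : C.A (X.prod X))
    (π : ℕ → C.A (X.prod X)) (g : C.A (X.prod X)) : Prop where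
  comm : Commutes C L g
  diag : ∀ a, C.comp (C.comp (π a) g) (π a) = π a

/-- The self-correspondence `c` does not lower the degree: `π b ∘ c ∘ π a = 0` for `b < a`. -/
def NotLowering (C : TheoryData.{u, v, 0} 𝒱 ℚ) {X : 𝒱.Obj} (π : ℕ → C.A (X.prod X))
    (c : C.A (X.prod X)) : Prop :=
  ∀ a b, b < a → C.comp (C.comp (π a) c) (π b) = 0

/-- The self-correspondence `c` does not raise the degree: `π b ∘ c ∘ π a = 0` for `a < b`. -/
def NotRaising (C : TheoryData.{u, v, 0} 𝒱 ℚ) {X : 𝒱.Obj} (π : ℕ → C.A (X.prod X))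
    (c : C.A (X.prod X)) : Prop :=
  ∀ a b, a < b → C.comp (C.comp (π a) c) (π b) = 0

/-- The entries `π b ∘ c ∘ π a` with `a ≤ 2 i - n < b` act as zero on `CH^i(X)`. -/
def RespectsStep (C : TheoryData.{u, v, 0} 𝒱 ℚ) {X : 𝒱.Obj} (π : ℕ → C.A (X.prod X))
    (i n : ℕ) (c : C.A (X.prod X)) : Prop :=
  ∀ a b, a + n ≤ 2 * i → 2 * i < b + n → ∀ z, C.Deg i z →
    C.act (C.comp (C.comp (π a) c) (π b)) z = 0

/-- For each `K` the subspace of `CH(X)` on which the `π a` with `a < K` are zero is the same for `π`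
and `π'`. -/
def SameOpposite (C : TheoryData.{u, v, 0} 𝒱 ℚ) {X : 𝒱.Obj} (π π' : ℕ → C.A (X.prod X)) : Prop :=
  ∀ (K : ℕ) (z : C.A X), (∀ a < K, C.act (π a) z = 0) ↔ ∀ a < K, C.act (π' a) z = 0

end Pool.Agent.N166.LD
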