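import Pool.Agent.N166.LD.Stm2
import Pool.Agent.N166.LD.Stm
import Pool.Agent.N166.LD.Core2
import Pool.Agent.N174.OV.Fac
import Pool.Agent.X308.S.Key

/-!
# Murre's conjecture (D) and injectivity of hard Lefschetz
-/

set_option autoImplicit false

open CategoryTheory AlgebraicGeometry

universe u v w

namespace Pool.Agent.N166.LD

open Pool.Agent.H914 Pool.Agent.H914.VarClass Pool.Agent.H914.VarClass.Obj Pool.Agent.W492.BB
  Pool.Agent.W550.Corr Pool.Agent.TH133 Pool.Agent.Y107 Pool.Agent.N174.OV Pool.Agent.N166.HI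

set_option linter.unusedSectionVars false

variable {k : Type u} [Field k] {𝒱 : VarClass k}

variable {C : TheoryData.{u, v, 0} 𝒱 ℚ} [hC : IsChowProj C] {X : 𝒱.Obj}
  {K : Type w} [Field K] {H : WeilTheoryData.{u, v, w} C K} [hH : IsWeilProj H]

/-- The families of subspaces to which the linear algebra is applied. -/
structure StableT (C : TheoryData.{u, v, 0} 𝒱 ℚ) (X : 𝒱.Obj) (h : C.A X)
    (T : ℤ → Submodule ℚ (C.A X)) : Prop where
  le : ∀ i, T i ≤ C.gr X i
  act : ∀ (e i j : ℤ) (Γ : C.A (X.prod X)), Γ ∈ C.gr (X.prod X) e → i + e - X.dim = j →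
    ∀ z ∈ T i, C.act Γ z ∈ T j
  mul : ∀ i, ∀ z ∈ T i, h * z ∈ T (i + 1)

include hC

lemma stable_gr {h : C.A X} (hh : C.Deg 1 h) : StableT C X h (C.gr X) where
  le _ := le_rfl
  act _ _ _ _ hΓ hj _ hz := X308.S.act_deg hΓ hz hj
  mul i z hz := by
    have := C.mul_mem hh hz
    rwa [add_comm] at this

include hH

omit hC hH in
lemma mem_homPart {i : ℤ} {z : C.A X} : z ∈ homPart H X i ↔ C.Deg i z ∧ H.cl z = 0 := by
  let S : Submodule ℚ (C.A X) :=
    { carrier := {z | C.Deg i z ∧ H.cl z = 0}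
      add_mem' := fun {a b} ha hb => ⟨Submodule.add_mem (C.gr X i) ha.1 hb.1, by
        rw [map_add, ha.2, hb.2, add_zero]⟩
      zero_mem' := ⟨Submodule.zero_mem _, map_zero _⟩
      smul_mem' := fun q a ha => ⟨Submodule.smul_mem (C.gr X i) q ha.1, by
        rw [Algebra.smul_def, map_mul, ha.2, mul_zero]⟩ }
  constructor
  · intro hz
    have hle : Submodule.span ℚ {z : C.A X | C.Deg i z ∧ H.cl z = 0} ≤ S := by
      rw [Submodule.span_le]
      exact fun x hx => hx
    exact hle hz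
  · intro hz
    exact Submodule.subset_span hz

lemma stable_hom {h : C.A X} (hh : C.Deg 1 h) : StableT C X h (homPart H X) where
  le _ _ hz := (mem_homPart.1 hz).1
  act _ _ _ Γ hΓ hj z hz := by
    rw [mem_homPart] at hz ⊢
    refine ⟨X308.S.act_deg hΓ hz.1 hj, ?_⟩
    have h2 : H.cl z = 0 := hz.2
    change H.cl (C.act Γ z) = 0
    rw [W492.BB.cl_act H, h2, TheoryData.act_map_zero]
  mul i z hz := by
    rw [mem_homPart] at hz ⊢
    refine ⟨(stable_gr hh).mul i z hz.1, ?_⟩
    have h2 : H.cl z = 0 := hz.2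
    rw [map_mul, h2, mul_zero]

omit hH in
lemma corPow_act (h z : C.A X) (a : ℕ) :
    C.act (corPow C (C.mulCorr h) a) z = h ^ a * z := by
  induction a with
  | zero => rw [pow_zero, one_mul]; exact act_dg C z
  | succ a ih =>
    have e : corPow C (C.mulCorr h) (a + 1) = C.comp (corPow C (C.mulCorr h) a) (C.mulCorr h) := rfl
    rw [e, C.act_comp, ih, C.act_mulCorr, pow_succ', mul_assoc]

omit hC hH in
lemma lin_pow [IsChowProj C] (h z : C.A X) (a : ℕ) :
    ((LinearMap.mulLeft ℚ h) ^ a) z = h ^ a * z := by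
  rw [LinearMap.pow_mulLeft]; rfl

/-- The linear algebra of a decomposition satisfying hard Lefschetz. -/
theorem core_of {h : C.A X} {π : ℕ → C.A (X.prod X)}
    (hL : IsLefschetz H X (C.mulCorr h) π) {T : ℤ → Submodule ℚ (C.A X)} (hT : StableT C X h T) :
    Core X.dim T (LinearMap.mulLeft ℚ h) (fun m => C.actL (zf π m)) := by
  have hck := hL.ck
  have hzd : ∀ m : ℤ, zf (C := C) π m ∈ C.gr (X.prod X) X.dim := by
    intro m
    rcases lt_or_ge m 0 with hm | hm
    · rw [zf_neg π hm]; exact Submodule.zero_mem _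
    · obtain ⟨m, rfl⟩ := Int.eq_ofNat_of_zero_le hm
      rw [zf_nat]; exact hck.deg m
  have hzz : ∀ (m : ℤ) (z : C.A X), C.act (zf π m) (C.act (zf π m) z) = C.act (zf π m) z := by
    intro m z
    rw [← C.act_comp, zf_comp hck, if_pos rfl]
  have hcomm : ∀ (a : ℕ) (m : ℤ) (z : C.A X), C.act (zf π (m + 2 * a)) (h ^ a * z) =
      h ^ a * C.act (zf π m) z := by
    intro a m z
    rw [← corPow_act, ← corPow_act, ← C.act_comp, ← C.act_comp,
      zf_hom_pow hck hL.lef]
  refine ⟨?_, ?_, ?_, ?_, ?_, ?_, ?_, ?_, ?_, ?_⟩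
  · intro i hi z hz
    exact X308.S.zero_of_neg (hT.le i hz) hi
  · intro i hi z hz
    exact hC.gr_top X i z (hT.le i hz) hi
  · intro i z hz
    exact hT.mul i z hz
  · intro m i z hz
    exact hT.act X.dim i i _ (hzd m) (by ring) z hz
  · intro m z
    exact hzz m z
  · rintro m (hm | hm) z
    · change C.act (zf π m) z = 0
      rw [zf_neg π hm, TheoryData.act_zero]
    · change C.act (zf π m) z = 0
      rw [zf_out hck hm, TheoryData.act_zero]
  · intro z
    have h1 : z = ∑ m ∈ Finset.range (2 * X.dim + 1), C.act (π m) z := by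
      rw [← act_sum, hck.sum, act_dg]
    conv_lhs => rw [h1]
    refine Finset.sum_congr rfl fun m _ => ?_
    change _ = C.act (zf π m) z
    rw [zf_nat]
  · intro m z
    have := hcomm 1 m z
    rw [pow_one] at this
    change C.act (zf π (m + 2)) (h * z) = h * C.act (zf π m) z
    simpa using this
  · intro m hm i z _ hpz h0
    change C.act (zf π m) z = z at hpz
    rw [zf_nat] at hpz
    rw [lin_pow] at h0
    obtain ⟨θ, -, h3, -⟩ := hL.lef.iso m hm
    have h4 : C.act (C.comp (C.comp (π m) (corPow C (C.mulCorr h) (X.dim - m))) θ) z =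
        C.act (π m) z := congrArg (fun Γ => C.act Γ z) h3
    rw [C.act_comp, C.act_comp, corPow_act, hpz, h0, TheoryData.act_map_zero] at h4
    exact h4.symm
  · intro m hm i y hy hpy
    have e : 2 * (X.dim : ℤ) - m = ((2 * X.dim - m : ℕ) : ℤ) := by
      push_cast [Nat.cast_sub (show m ≤ 2 * X.dim by omega)]
      ring
    change C.act (zf π (2 * X.dim - m)) y = y at hpy
    rw [e, zf_nat] at hpy
    obtain ⟨θ, hθ, -, h3⟩ := hL.lef.iso m hm
    have h4 : C.act (C.comp (C.comp (π (2 * X.dim - m)) θ)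
        (corPow C (C.mulCorr h) (X.dim - m))) y = C.act (π (2 * X.dim - m)) y :=
      congrArg (fun Γ => C.act Γ y) h3
    rw [C.act_comp, C.act_comp, corPow_act, hpy] at h4
    refine ⟨C.act (zf π m) (C.act θ y), ?_, hzz m _, ?_⟩
    · exact hT.act X.dim i i _ (hzd m) (by ring) _ (hT.act m _ i θ hθ (by ring) y hy)
    · rw [lin_pow]
      have h5 := hcomm (X.dim - m) m (C.act θ y)
      rw [show (m : ℤ) + 2 * ((X.dim - m : ℕ) : ℤ) = ((2 * X.dim - m : ℕ) : ℤ) by omega,
        zf_nat, h4, hpy] at h5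
      exact h5.symm

lemma cl_proj {π : ℕ → C.A (X.prod X)} (hck : IsCK H X π) {i : ℤ} {z : C.A X} (hz : z ∈ C.gr X i)
    {m : ℕ} (hm : (m : ℤ) ≠ 2 * i) : H.cl (C.act (π m) z) = 0 := by
  rw [W492.BB.cl_act H]
  exact hck.act_ne m (2 * i) _ (Ne.symm hm) (H.cl_mem hz)

lemma holdsD_iff {π : ℕ → C.A (X.prod X)} (hck : IsCK H X π) (i : ℕ) :
    HoldsD H X π i ↔ ∀ m : ℤ, 2 * (i : ℤ) < m + 1 → ∀ z ∈ homPart H X i,
      C.actL (zf π m) z = 0 := by
  constructor
  · intro hD m hm z hz
    obtain ⟨m, rfl⟩ := Int.eq_ofNat_of_zero_le (show 0 ≤ m by omega)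
    have h1 : z ∈ ckFil C π i 1 := by rw [hD]; exact hz
    have h2 := ((hck.mem_ckFil i 1 z).1 h1).2 m (by omega)
    change C.act (zf π m) z = 0
    rw [zf_nat]; exact h2
  · intro hv
    ext z
    rw [hck.mem_ckFil]
    constructor
    · rintro ⟨h1, h2⟩
      refine mem_homPart.2 ⟨h1, ?_⟩
      have h3 : z = ∑ m ∈ Finset.range (2 * X.dim + 1), C.act (π m) z := by
        rw [← act_sum, hck.sum, act_dg]
      rw [h3, map_sum]
      refine Finset.sum_eq_zero fun m _ => ?_
      rcases lt_or_ge m (2 * i) with h4 | h4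
      · exact cl_proj hck h1 (by omega)
      · rw [h2 m (by omega), map_zero]
    · intro hz
      refine ⟨(mem_homPart.1 hz).1, fun j hj => ?_⟩
      have := hv j (by omega) z hz
      change C.act (zf π j) z = 0 at this
      rwa [zf_nat] at this

lemma step_bot_iff {π : ℕ → C.A (X.prod X)} (hck : IsCK H X π) (i n : ℕ) :
    ckFil C π i n = ⊥ ↔ ∀ m : ℤ, m + n < 2 * (i : ℤ) + 1 → ∀ z ∈ C.gr X i,
      C.actL (zf π m) z = 0 := by
  constructor
  · intro hb m hm z hz
    rcases lt_or_ge m 0 with h0 | h0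
    · change C.act (zf π m) z = 0
      rw [zf_neg π h0, TheoryData.act_zero]
    obtain ⟨m, rfl⟩ := Int.eq_ofNat_of_zero_le h0
    change C.act (zf π m) z = 0
    rw [zf_nat]
    have h1 : C.act (π m) z ∈ ckFil C π i n := by
      rw [hck.mem_ckFil]
      refine ⟨act_mem0 C (hck.deg m) hz, fun j hj => ?_⟩
      rw [← C.act_comp, hck.orth m j (by omega), TheoryData.act_zero]
    rw [hb] at h1
    exact (Submodule.mem_bot _).1 h1
  · intro hv
    rw [eq_bot_iff]
    intro z hz
    rw [hck.mem_ckFil] at hz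
    rw [Submodule.mem_bot]
    have h3 : z = ∑ m ∈ Finset.range (2 * X.dim + 1), C.act (π m) z := by
      rw [← act_sum, hck.sum, act_dg]
    rw [h3]
    refine Finset.sum_eq_zero fun m _ => ?_
    rcases lt_or_ge m (2 * i + 1 - n) with h4 | h4
    · have := hv m (by omega) z hz.1
      change C.act (zf π m) z = 0 at this
      rwa [zf_nat] at this
    · exact hz.2 m h4

lemma step_zero_iff {π : ℕ → C.A (X.prod X)} (hck : IsCK H X π) (i : ℕ) :
    ckFil C π i 0 = C.gr X i ↔ ∀ m : ℤ, 2 * (i : ℤ) < m → ∀ z ∈ C.gr X i,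
      C.actL (zf π m) z = 0 := by
  constructor
  · intro hD m hm z hz
    obtain ⟨m, rfl⟩ := Int.eq_ofNat_of_zero_le (show 0 ≤ m by omega)
    rw [← hD] at hz
    have h2 := ((hck.mem_ckFil i 0 z).1 hz).2 m (by omega)
    change C.act (zf π m) z = 0
    rw [zf_nat]; exact h2
  · intro hv
    ext z
    rw [hck.mem_ckFil]
    constructor
    · exact fun h => h.1
    · intro hz
      refine ⟨hz, fun j hj => ?_⟩
      have := hv j (by omega) z hz
      change C.act (zf π j) z = 0 at this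
      rwa [zf_nat] at this

variable {h : C.A X} {π : ℕ → C.A (X.prod X)}

/-- **(D) in low codimensions.** -/
theorem d_upto (hh : C.Deg 1 h) (hL : IsLefschetz H X (C.mulCorr h) π) (I : ℕ)
    (hI : 2 * I ≤ X.dim + 1) : (∀ i ≤ I, HoldsD H X π i) ↔ ∀ i ≤ I, InjectiveOnHom H X h i := by
  have hc := core_of hL (stable_hom (H := H) hh)
  constructor
  · intro hD i hi z hz h0
    refine hc.injν 1 i (by omega) (fun m hm z hz => ?_) z hz (by rw [lin_pow]; exact h0)
    exact (holdsD_iff hL.ck i).1 (hD i hi) m (by push_cast at hm; omega) z hz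
  · intro hinj i hi
    rw [holdsD_iff hL.ck]
    intro m hm z hz
    refine hc.vanishAν 1 I (fun j hj _ z hz h0 => ?_) i m (by exact_mod_cast hi)
      (by push_cast; omega) z hz
    rw [lin_pow] at h0
    exact hinj j hj z hz h0

theorem d_dual (hh : C.Deg 1 h) (hL : IsLefschetz H X (C.mulCorr h) π) (i : ℕ)
    (hi : X.dim + 1 < 2 * i) (hD : ∀ j, j + i ≤ X.dim → HoldsD H X π j) : HoldsD H X π i := by
  have hc := core_of hL (stable_hom (H := H) hh)
  rw [holdsD_iff hL.ck]
  intro m hm z hz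
  refine hc.dualν 1 i (by omega) (fun j hj m hm z hz => ?_) m (by push_cast; omega) z hz
  rcases lt_or_ge j 0 with h0 | h0
  · rw [hc.neg j h0 z hz, map_zero]
  obtain ⟨j, rfl⟩ := Int.eq_ofNat_of_zero_le h0
  exact (holdsD_iff hL.ck j).1 (hD j (by push_cast at hj; omega)) m (by push_cast at hm; omega) z hz

theorem d_iff (hh : C.Deg 1 h) (hL : IsLefschetz H X (C.mulCorr h) π) :
    (∀ i, HoldsD H X π i) ↔ ∀ i, 2 * i ≤ X.dim + 1 → InjectiveOnHom H X h i := by
  have hc := core_of hL (stable_hom (H := H) hh)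
  constructor
  · intro hD i hi
    exact (d_upto hh hL i hi).1 (fun j _ => hD j) i le_rfl
  · intro hinj i
    rw [holdsD_iff hL.ck]
    intro m hm z hz
    refine hc.vanishAν 1 i (fun j _ hj z hz h0 => ?_) i m le_rfl (by push_cast; omega) z hz
    rw [lin_pow] at h0
    exact hinj j hj z hz h0

theorem b_iff (hh : C.Deg 1 h) (hL : IsLefschetz H X (C.mulCorr h) π) :
    (∀ i : ℕ, ckFil C π i 0 = C.gr X i) ↔ ∀ i, 2 * i ≤ X.dim → InjectiveOnChow C X h i := by
  have hc := core_of hL (stable_gr hh)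
  constructor
  · intro hD i hi z hz h0
    refine hc.injν 0 i (by omega) (fun m hm z hz => ?_) z hz (by rw [lin_pow]; exact h0)
    exact (step_zero_iff hL.ck i).1 (hD i) m (by push_cast at hm; omega) z hz
  · intro hinj i
    rw [step_zero_iff hL.ck]
    intro m hm z hz
    refine hc.vanishAν 0 i (fun j _ hj z hz h0 => ?_) i m le_rfl (by push_cast; omega) z hz
    rw [lin_pow] at h0
    exact hinj j (by omega) z hz h0

theorem len_iff (hh : C.Deg 1 h) (hL : IsLefschetz H X (C.mulCorr h) π) (r : ℕ) :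
    (∀ i : ℕ, ckFil C π i (r + 1) = ⊥) ↔
      ∀ i, 2 * i ≤ X.dim + r → SurjectiveOnChow C X h r i := by
  have hc := core_of hL (stable_gr hh)
  have hbot : (∀ i : ℕ, ckFil C π i (r + 1) = ⊥) ↔
      ∀ i m : ℤ, m + r < 2 * i → ∀ z ∈ C.gr X i, C.actL (zf π m) z = 0 := by
    constructor
    · intro hb i m hm z hz
      rcases lt_or_ge i 0 with h0 | h0
      · rw [hc.neg i h0 z hz, map_zero]
      obtain ⟨i, rfl⟩ := Int.eq_ofNat_of_zero_le h0
      exact (step_bot_iff hL.ck i (r + 1)).1 (hb i) m (by push_cast; omega) z hz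
    · intro hv i
      rw [step_bot_iff hL.ck]
      intro m hm z hz
      exact hv i m (by push_cast at hm; omega) z hz
  rw [hbot]
  constructor
  · intro hv i hi w hw
    obtain ⟨z, hz, hzw⟩ := hc.surjν r hv i hi w hw
    exact ⟨z, hz, by rw [← lin_pow]; exact hzw⟩
  · intro hs i m hm z hz
    refine hc.vanishBν r (fun j hj w hw => ?_) i m hm z hz
    obtain ⟨z, hz, hzw⟩ := hs j hj w hw
    exact ⟨z, hz, by rw [lin_pow]; exact hzw⟩

theorem rank_iff (hh : C.Deg 1 h) (hL : IsLefschetz H X (C.mulCorr h) π) (hr : EqualRanks H X) :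
    (∀ i, HoldsD H X π i) ↔ ∀ i : ℕ, ckFil C π i 2 = ⊥ := by
  have hc := core_of hL (stable_hom (H := H) hh)
  have hbot : (∀ i : ℕ, ckFil C π i 2 = ⊥) ↔
      ∀ i m : ℤ, m + 1 < 2 * i → ∀ z ∈ homPart H X i, C.actL (zf π m) z = 0 := by
    constructor
    · intro hb i m hm z hz
      rcases lt_or_ge i 0 with h0 | h0
      · rw [hc.neg i h0 z hz, map_zero]
      obtain ⟨i, rfl⟩ := Int.eq_ofNat_of_zero_le h0
      exact (step_bot_iff hL.ck i 2).1 (hb i) m (by push_cast; omega) z (mem_homPart.1 hz).1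
    · intro hv i
      rw [step_bot_iff hL.ck]
      intro m hm z hz
      rcases lt_or_ge m 0 with h0 | h0
      · change C.act (zf π m) z = 0
        rw [zf_neg π h0, TheoryData.act_zero]
      obtain ⟨m, rfl⟩ := Int.eq_ofNat_of_zero_le h0
      have h1 : C.act (π m) z ∈ homPart H X i :=
        mem_homPart.2 ⟨act_mem0 C (hL.ck.deg m) hz, cl_proj hL.ck hz (by push_cast at hm; omega)⟩
      have h2 := hv i m (by push_cast at hm; omega) _ h1
      change C.act (zf π m) (C.act (π m) z) = 0 at h2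
      change C.act (zf π m) z = 0
      rw [zf_nat] at h2 ⊢
      rwa [← C.act_comp, hL.ck.idem] at h2
  have hiff : (∀ i, 2 * i ≤ X.dim + 1 → InjectiveOnHom H X h i) ↔
      ∀ i : ℕ, 2 * i ≤ X.dim + 1 → ∀ w ∈ homPart H X ((X.dim : ℤ) + (1 : ℕ) - i),
        ∃ z ∈ homPart H X i, ((LinearMap.mulLeft ℚ h) ^ (X.dim + 1 - 2 * i)) z = w := by
    refine forall_congr' fun i => forall_congr' fun hi => ?_
    obtain ⟨n, ⟨f1, f1'⟩, ⟨f2, f2'⟩⟩ := hr i hi
    have f3 := f1'.trans f2'.symm
    have hmem : ∀ z ∈ homPart H X i, ((LinearMap.mulLeft ℚ h) ^ (X.dim + 1 - 2 * i)) z ∈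
        homPart H X ((X.dim : ℤ) + 1 - i) := by
      intro z hz
      have := hc.powMem (X.dim + 1 - 2 * i) i z hz
      convert this using 2
      push_cast [Nat.cast_sub hi]
      ring
    let φ : homPart H X i →ₗ[ℚ] homPart H X ((X.dim : ℤ) + 1 - i) :=
      ((LinearMap.mulLeft ℚ h) ^ (X.dim + 1 - 2 * i)).restrict hmem
    have hφ : ∀ z : homPart H X i, ((φ z : homPart H X ((X.dim : ℤ) + 1 - i)) : C.A X) =
        h ^ (X.dim + 1 - 2 * i) * (z : C.A X) := by
      intro z
      rw [← lin_pow]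
      rfl
    have h1 : Function.Injective φ ↔ Function.Surjective φ :=
      LinearMap.injective_iff_surjective_of_finrank_eq_finrank f3
    have h2 : InjectiveOnHom H X h i ↔ Function.Injective φ := by
      rw [injective_iff_map_eq_zero]
      constructor
      · intro hinj z hz
        have h3 := hφ z
        rw [hz] at h3
        exact Subtype.ext (hinj z z.2 h3.symm)
      · intro hinj z hz h0
        have h3 := hinj ⟨z, hz⟩ (Subtype.ext (by rw [hφ]; exact h0))
        exact congrArg Subtype.val h3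
    rw [h2, h1]
    constructor
    · intro hs w hw
      obtain ⟨z, hz⟩ := hs ⟨w, by exact_mod_cast hw⟩
      refine ⟨z, z.2, ?_⟩
      rw [lin_pow, ← hφ, hz]
    · rintro hs ⟨w, hw⟩
      obtain ⟨z, hz, hzw⟩ := hs w (by exact_mod_cast hw)
      exact ⟨⟨z, hz⟩, Subtype.ext ((hφ ⟨z, hz⟩).trans ((lin_pow h z _).symm.trans hzw))⟩
  rw [d_iff hh hL, hiff, hbot]
  constructor
  · intro hs i m hm z hz
    exact hc.vanishBν 1 hs i m (by push_cast; omega) z hz
  · intro hv i hi w hw
    exact hc.surjν 1 (fun i m hm => hv i m (by push_cast at hm; omega)) i hi w hw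

end Pool.Agent.N166.LD
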