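import Mathlib

/-!
# Families of complete orthogonal idempotents and triangular elements
-/

set_option autoImplicit false

namespace Pool.Agent.N166.LD

variable {R : Type*} [Ring R]

/-- Complete orthogonal idempotents `p 0, …, p N`. -/
structure Dec (N : ℕ) (p : ℕ → R) : Prop where
  out : ∀ i, N < i → p i = 0
  idem : ∀ i, p i * p i = p i
  orth : ∀ i j, i ≠ j → p i * p j = 0
  sum : ∑ i ∈ Finset.range (N + 1), p i = 1

namespace Dec

variable {N : ℕ} {p : ℕ → R} (h : Dec N p)
include h

lemma mul_eq (i j : ℕ) : p i * p j = if i = j then p i else 0 := by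
  by_cases hij : i = j
  · subst hij; rw [if_pos rfl, h.idem]
  · rw [if_neg hij, h.orth i j hij]

lemma sum_left (x : R) : x = ∑ i ∈ Finset.range (N + 1), p i * x := by
  rw [← Finset.sum_mul, h.sum, one_mul]

lemma sum_right (x : R) : x = ∑ i ∈ Finset.range (N + 1), x * p i := by
  rw [← Finset.mul_sum, h.sum, mul_one]

lemma eq_zero_of {x : R} (hx : ∀ b a, p b * x * p a = 0) : x = 0 := by
  rw [h.sum_right x]
  refine Finset.sum_eq_zero fun a _ => ?_
  rw [h.sum_left (x * p a)]
  refine Finset.sum_eq_zero fun b _ => ?_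
  rw [← mul_assoc, hx]

/-- The product of a sum over one family, one term. -/
lemma sum_single (f : ℕ → R) (a : ℕ) :
    (∑ i ∈ Finset.range (N + 1), f i * p i) * p a = if a ≤ N then f a * p a else 0 := by
  rw [Finset.sum_mul]
  by_cases ha : a ≤ N
  · rw [if_pos ha, Finset.sum_eq_single_of_mem a (Finset.mem_range.2 (by omega))]
    · rw [mul_assoc, h.idem]
    · intro b _ hb
      rw [mul_assoc, h.orth b a hb, mul_zero]
  · rw [if_neg ha, h.out a (by omega)]
    simp

lemma sum_single' (f : ℕ → R) (a : ℕ) :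
    (∑ i ∈ Finset.range (N + 1), f i * p i) * p a = f a * p a := by
  rw [h.sum_single]
  split_ifs with ha
  · rfl
  · rw [h.out a (by omega), mul_zero]

end Dec

/-- The formal properties of the decompositions with motivic hard Lefschetz. -/
structure Sys (N : ℕ) (Z : Subring R) (P : (ℕ → R) → Prop) : Prop where
  dec : ∀ p, P p → Dec N p
  tri : ∀ p q, P p → P q → ∀ c ∈ Z, ∀ a b, b < a → q b * c * p a = 0
  shift : ∀ p, P p → ∀ c ∈ Z, ∀ w, ∑ a ∈ Finset.range (N + 1), p (a + w) * c * p a ∈ Z
  cross : ∀ p q, P p → P q → ∑ a ∈ Finset.range (N + 1), q a * p a ∈ Z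
  conj : ∀ p, P p → ∀ g ∈ Z, ∀ g' ∈ Z, g * g' = 1 → g' * g = 1 →
    (∀ a, p a * g * p a = p a) → (∀ a, p a * g' * p a = p a) → P (fun m => g * p m * g')

namespace Sys

variable {N : ℕ} {Z : Subring R} {P : (ℕ → R) → Prop} (S : Sys N Z P)
include S

lemma tri1 {p q : ℕ → R} (hp : P p) (hq : P q) {a b : ℕ} (hab : b < a) : q b * p a = 0 := by
  have := S.tri p q hp hq 1 Z.one_mem a b hab
  rwa [mul_one] at this

lemma mid {p q : ℕ → R} (hp : P p) (hq : P q) (a : ℕ) : p a * q a * p a = p a := by
  have hd := S.dec q hq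
  have h1 : p a * p a = ∑ b ∈ Finset.range (N + 1), p a * q b * p a := by
    rw [← Finset.sum_mul, ← Finset.mul_sum, hd.sum, mul_one]
  rw [(S.dec p hp).idem] at h1
  by_cases ha : a ≤ N
  · rw [Finset.sum_eq_single_of_mem a (Finset.mem_range.2 (by omega))] at h1
    · exact h1.symm
    · intro b _ hb
      rcases lt_or_gt_of_ne hb with h2 | h2
      · rw [mul_assoc, S.tri1 hp hq h2, mul_zero]
      · rw [S.tri1 hq hp h2, zero_mul]
  · rw [(S.dec p hp).out a (by omega)]
    simp

/-- The element which moves `p` to `q`. -/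
lemma mover {p q : ℕ → R} (hp : P p) (hq : P q) :
    ∃ g ∈ Z, (∀ a, p a * g * p a = p a) ∧ ∀ m, g * p m = q m * g := by
  refine ⟨∑ a ∈ Finset.range (N + 1), q a * p a, S.cross p q hp hq, ?_, ?_⟩
  · intro a
    rw [mul_assoc, (S.dec p hp).sum_single' q a, ← mul_assoc, S.mid hp hq]
  · intro m
    rw [(S.dec p hp).sum_single' q m, Finset.mul_sum]
    by_cases hm : m ≤ N
    · rw [Finset.sum_eq_single_of_mem m (Finset.mem_range.2 (by omega))]
      · rw [← mul_assoc, (S.dec q hq).idem]
      · intro b _ hb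
        rw [← mul_assoc, (S.dec q hq).orth m b (Ne.symm hb), zero_mul]
    · rw [(S.dec p hp).out m (by omega), (S.dec q hq).out m (by omega)]
      simp

lemma mover_unique {p q : ℕ → R} (hp : P p) (hq : P q) {g : R} (hg : g ∈ Z)
    (h1 : ∀ a, p a * g * p a = p a) (h2 : ∀ m, g * p m = q m * g) :
    g = ∑ a ∈ Finset.range (N + 1), q a * p a := by
  have hd := S.dec p hp
  rw [hd.sum_right g]
  refine Finset.sum_congr rfl fun a ha => ?_
  have h3 : g * p a = q a * g * p a := by
    rw [← h2, mul_assoc, hd.idem]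
  have h4 : q a * g * p a = ∑ b ∈ Finset.range (N + 1), q a * p b * (p b * g * p a) := by
    have : q a * g * p a = q a * 1 * (g * p a) := by rw [mul_one, mul_assoc]
    rw [this, ← hd.sum, Finset.mul_sum, Finset.sum_mul]
    refine Finset.sum_congr rfl fun b _ => ?_
    calc q a * p b * (g * p a) = q a * (p b * p b) * (g * p a) := by rw [hd.idem]
      _ = q a * p b * (p b * g * p a) := by simp only [mul_assoc]
  rw [h3, h4, Finset.sum_eq_single_of_mem a ha]
  · rw [h1, mul_assoc, hd.idem]
  · intro b _ hb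
    rcases lt_or_gt_of_ne hb with h5 | h5
    · rw [S.tri p p hp hp g hg a b h5, mul_zero]
    · rw [S.tri1 hp hq h5, zero_mul]

/-- Raising elements are invertible. -/
lemma inverse {p : ℕ → R} (hp : P p) {g : R} (hg : g ∈ Z) (h1 : ∀ a, p a * g * p a = p a) :
    ∃ g' ∈ Z, g * g' = 1 ∧ g' * g = 1 ∧ ∀ a, p a * g' * p a = p a := by
  have hd := S.dec p hp
  set n : R := 1 - g with hn
  have hnZ : n ∈ Z := Z.sub_mem Z.one_mem hg
  have hlow : ∀ a b, b ≤ a → p b * n * p a = 0 := by
    intro a b hab
    rcases eq_or_lt_of_le hab with rfl | hlt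
    · rw [hn, mul_sub, sub_mul, mul_one, h1, hd.idem, sub_self]
    · exact S.tri p p hp hp n hnZ a b hlt
  have hpow : ∀ k a b, b < a + k → p b * n ^ k * p a = 0 := by
    intro k
    induction k with
    | zero =>
      intro a b hab
      rw [pow_zero, mul_one]
      exact hd.orth b a (by omega)
    | succ k ih =>
      intro a b hab
      have e : p b * n ^ (k + 1) * p a = ∑ c ∈ Finset.range (N + 1),
          p b * n ^ k * p c * (p c * n * p a) := by
        have : p b * n ^ (k + 1) * p a = p b * n ^ k * 1 * (n * p a) := by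
          rw [pow_succ]; simp only [mul_one, mul_assoc]
        rw [this, ← hd.sum, Finset.mul_sum, Finset.sum_mul]
        refine Finset.sum_congr rfl fun c _ => ?_
        calc p b * n ^ k * p c * (n * p a) = p b * n ^ k * (p c * p c) * (n * p a) := by
              rw [hd.idem]
          _ = p b * n ^ k * p c * (p c * n * p a) := by simp only [mul_assoc]
      rw [e]
      refine Finset.sum_eq_zero fun c _ => ?_
      rcases le_or_gt c a with h3 | h3
      · rw [hlow a c h3, mul_zero]
      · rw [ih c b (by omega), zero_mul]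
  have hnil : n ^ (N + 1) = 0 := by
    refine hd.eq_zero_of fun b a => ?_
    rcases le_or_gt b N with h3 | h3
    · exact hpow _ a b (by omega)
    · rw [hd.out b h3, zero_mul, zero_mul]
  have hg' : g = 1 - n := by rw [hn]; abel
  set g' : R := ∑ i ∈ Finset.range (N + 1), n ^ i with hgg
  have hZ' : g' ∈ Z := Z.sum_mem fun i _ => Z.pow_mem hnZ i
  have e1 : g * g' = 1 := by
    rw [hg', hgg, mul_neg_geom_sum, hnil, sub_zero]
  have e2 : g' * g = 1 := by
    rw [hg', hgg, geom_sum_mul_neg, hnil, sub_zero]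
  refine ⟨g', hZ', e1, e2, fun a => ?_⟩
  have h4 : p a = p a * g * p a * (p a * g' * p a) := by
    have h5 : p a * (g * g') * p a = ∑ c ∈ Finset.range (N + 1),
        p a * g * p c * (p c * g' * p a) := by
      have : p a * (g * g') * p a = p a * g * 1 * (g' * p a) := by simp only [mul_one, mul_assoc]
      rw [this, ← hd.sum, Finset.mul_sum, Finset.sum_mul]
      refine Finset.sum_congr rfl fun c _ => ?_
      calc p a * g * p c * (g' * p a) = p a * g * (p c * p c) * (g' * p a) := by rw [hd.idem]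
        _ = p a * g * p c * (p c * g' * p a) := by simp only [mul_assoc]
    rw [e1, mul_one, hd.idem] at h5
    by_cases ha : a ≤ N
    · rw [Finset.sum_eq_single_of_mem a (Finset.mem_range.2 (by omega))] at h5
      · exact h5
      · intro c _ hc
        rcases lt_or_gt_of_ne hc with h6 | h6
        · rw [S.tri p p hp hp g' hZ' a c h6, mul_zero]
        · rw [S.tri p p hp hp g hg c a h6, zero_mul]
    · rw [hd.out a (by omega)]
      simp
  rw [h1] at h4
  calc p a * g' * p a = p a * p a * g' * p a := by rw [hd.idem]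
    _ = p a * (p a * g' * p a) := by simp only [mul_assoc]
    _ = p a := h4.symm

/-- The parts of an element. -/
lemma part {p : ℕ → R} (hp : P p) (c : R) (w a : ℕ) :
    (∑ i ∈ Finset.range (N + 1), p (i + w) * c * p i) * p a = p (a + w) * c * p a :=
  (S.dec p hp).sum_single' (fun i => p (i + w) * c) a

/-- The element `1 + c_w`. -/
lemma one_add {p : ℕ → R} (hp : P p) {c : R} (hc : c ∈ Z) {w : ℕ} (hw : 0 < w) :
    1 + ∑ i ∈ Finset.range (N + 1), p (i + w) * c * p i ∈ Z ∧
      (∀ a, p a * (1 + ∑ i ∈ Finset.range (N + 1), p (i + w) * c * p i) * p a = p a) ∧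
      ∀ a, p (a + w) * (1 + ∑ i ∈ Finset.range (N + 1), p (i + w) * c * p i) * p a =
        p (a + w) * c * p a := by
  have hd := S.dec p hp
  refine ⟨Z.add_mem Z.one_mem (S.shift p hp c hc w), fun a => ?_, fun a => ?_⟩
  · rw [mul_assoc, add_mul, one_mul, S.part hp, mul_add, hd.idem, ← mul_assoc, ← mul_assoc,
      hd.orth a (a + w) (by omega), zero_mul, zero_mul, add_zero]
  · rw [mul_assoc, add_mul, one_mul, S.part hp, mul_add, hd.orth (a + w) a (by omega), zero_add,
      ← mul_assoc, ← mul_assoc, hd.idem]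

/-- **Uniqueness.** -/
theorem unique_tfae {p : ℕ → R} (hp : P p) :
    List.TFAE [∀ q, P q → q = p,
      ∀ c ∈ Z, ∀ a b, a < b → p b * c * p a = 0,
      ∀ c ∈ Z, ∀ m, c * p m = p m * c] := by
  have hd := S.dec p hp
  tfae_have 1 → 2 := by
    intro h1 c hc a b hab
    obtain ⟨w, rfl⟩ : ∃ w, b = a + w := ⟨b - a, by omega⟩
    have hw : 0 < w := by omega
    obtain ⟨hg, hga, hgb⟩ := S.one_add hp hc hw
    set g := 1 + ∑ i ∈ Finset.range (N + 1), p (i + w) * c * p i with hgdef
    obtain ⟨g', hg', e1, e2, hga'⟩ := S.inverse hp hg hga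
    have h3 := congrFun (h1 _ (S.conj p hp g hg g' hg' e1 e2 hga hga')) a
    have h4 : g * p a = p a * g := by
      have h5 : g * p a * g' * g = p a * g := by rw [h3]
      rwa [mul_assoc, e2, mul_one] at h5
    rw [← hgb a, mul_assoc, h4, ← mul_assoc, hd.orth (a + w) a (by omega), zero_mul]
  tfae_have 2 → 3 := by
    intro h2 c hc m
    have h3 : c * p m = p m * c * p m := by
      rw [hd.sum_left (c * p m)]
      by_cases hm : m ≤ N
      · rw [Finset.sum_eq_single_of_mem m (Finset.mem_range.2 (by omega)), mul_assoc]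
        intro b _ hb
        rw [← mul_assoc]
        rcases lt_or_gt_of_ne hb with h6 | h6
        · exact S.tri p p hp hp c hc m b h6
        · exact h2 c hc m b h6
      · rw [hd.out m (by omega)]
        simp
    have h4 : p m * c = p m * c * p m := by
      conv_lhs => rw [hd.sum_right (p m * c)]
      by_cases hm : m ≤ N
      · rw [Finset.sum_eq_single_of_mem m (Finset.mem_range.2 (by omega))]
        intro b _ hb
        rcases lt_or_gt_of_ne hb with h6 | h6
        · exact h2 c hc b m h6
        · exact S.tri p p hp hp c hc b m h6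
      · rw [hd.out m (by omega)]
        simp
    rw [h3, ← h4]
  tfae_have 3 → 1 := by
    intro h3 q hq
    obtain ⟨g, hg, hga, hgq⟩ := S.mover hp hq
    obtain ⟨g', hg', e1, e2, hga'⟩ := S.inverse hp hg hga
    funext m
    have h4 : q m * g * g' = p m * g * g' := by rw [← hgq, h3 g hg m]
    rwa [mul_assoc, e1, mul_one, mul_assoc, e1, mul_one] at h4
  tfae_finish

end Sys

/-! ### The action on a module -/

section act

variable {M : Type*} [AddCommGroup M] [Module ℚ M] (A : R →+* Module.End ℚ M)

/-- The step of the filtration: the part of `T` on which the `p b`, `b ≥ K`, vanish. -/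
def Fil (T : Submodule ℚ M) (p : ℕ → R) (K : ℕ) (z : M) : Prop :=
  z ∈ T ∧ ∀ b, K ≤ b → A (p b) z = 0

variable {N : ℕ} {Z : Subring R} {P : (ℕ → R) → Prop} (S : Sys N Z P) {T : Submodule ℚ M}
  (hT : ∀ p, P p → ∀ a, ∀ z ∈ T, A (p a) z ∈ T) (hZ : ∀ c ∈ Z, ∀ z ∈ T, A c z ∈ T)
include S hZ

omit S hZ in
lemma act_mul (a b : R) (z : M) : A (a * b) z = A a (A b z) := by
  rw [map_mul]; rfl

include hT in
/-- **Independence of one step of the filtration.** -/
theorem fil_tfae {p : ℕ → R} (hp : P p) (K : ℕ) :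
    List.TFAE [∀ q, P q → ∀ z, Fil A T q K z ↔ Fil A T p K z,
      ∀ c ∈ Z, ∀ z, Fil A T p K z → Fil A T p K (A c z),
      ∀ c ∈ Z, ∀ a b, a < K → K ≤ b → ∀ z ∈ T, A (p b * c * p a) z = 0] := by
  have hd := S.dec p hp
  have hfa : ∀ a, a < K → ∀ z ∈ T, Fil A T p K (A (p a) z) := by
    intro a ha z hz
    refine ⟨hT p hp a z hz, fun b hb => ?_⟩
    rw [← act_mul, hd.orth b a (by omega), map_zero, LinearMap.zero_apply]
  tfae_have 2 → 3 := by
    intro h2 c hc a b ha hb z hz
    rw [mul_assoc, act_mul, act_mul]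
    exact (h2 c hc _ (hfa a ha z hz)).2 b hb
  tfae_have 3 → 2 := by
    intro h3 c hc z hz
    refine ⟨hZ c hc z hz.1, fun b hb => ?_⟩
    rw [← act_mul, hd.sum_right (p b * c), map_sum, LinearMap.sum_apply]
    refine Finset.sum_eq_zero fun a _ => ?_
    rcases lt_or_ge a K with ha | ha
    · exact h3 c hc a b ha hb z hz.1
    · rw [act_mul, hz.2 a ha, map_zero]
  tfae_have 2 → 1 := by
    intro h2 q hq z
    obtain ⟨g, hg, hga, hgq⟩ := S.mover hp hq
    obtain ⟨g', hg', e1, e2, -⟩ := S.inverse hp hg hga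
    have hq' : ∀ b, q b = g * p b * g' := by
      intro b
      rw [hgq, mul_assoc, e1, mul_one]
    have hp' : ∀ b, p b * g' = g' * q b := by
      intro b
      rw [hq', ← mul_assoc, ← mul_assoc, e2, one_mul]
    constructor
    · rintro ⟨hz1, hz2⟩
      have h4 : Fil A T p K (A g' z) := by
        refine ⟨hZ g' hg' z hz1, fun b hb => ?_⟩
        rw [← act_mul, hp', act_mul, hz2 b hb, map_zero]
      have h5 := h2 g hg _ h4
      rwa [← act_mul, e1, map_one] at h5
    · intro hz
      have h4 := h2 g' hg' z hz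
      refine ⟨hz.1, fun b hb => ?_⟩
      rw [hq', mul_assoc, act_mul, act_mul, h4.2 b hb, map_zero]
  tfae_have 1 → 3 := by
    intro h1 c hc a b ha hb z hz
    obtain ⟨w, rfl⟩ : ∃ w, b = a + w := ⟨b - a, by omega⟩
    have hw : 0 < w := by omega
    obtain ⟨hg, hga, hgb⟩ := S.one_add hp hc hw
    set g := 1 + ∑ i ∈ Finset.range (N + 1), p (i + w) * c * p i with hgdef
    obtain ⟨g', hg', e1, e2, hga'⟩ := S.inverse hp hg hga
    have hq := S.conj p hp g hg g' hg' e1 e2 hga hga'
    have h4 : Fil A T (fun m => g * p m * g') K (A (g * p a) z) := by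
      refine ⟨?_, fun b hb => ?_⟩
      · rw [act_mul]
        exact hZ g hg _ (hT p hp a z hz)
      · rw [← act_mul]
        have : g * p b * g' * (g * p a) = 0 := by
          calc g * p b * g' * (g * p a) = g * p b * (g' * g) * p a := by simp only [mul_assoc]
            _ = 0 := by rw [e2, mul_one, mul_assoc, hd.orth b a (by omega), mul_zero]
        rw [this, map_zero, LinearMap.zero_apply]
    have h5 := ((h1 _ hq _).1 h4).2 (a + w) hb
    rw [← hgb a, mul_assoc, act_mul]
    exact h5
  tfae_finish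

omit hZ in
/-- **The opposite filtration does not depend on the choice.** -/
theorem opp {p q : ℕ → R} (hp : P p) (hq : P q) (K : ℕ) {z : M} (hz : ∀ a < K, A (p a) z = 0) :
    ∀ a < K, A (q a) z = 0 := by
  intro a ha
  have hd := S.dec p hp
  rw [hd.sum_right (q a), map_sum, LinearMap.sum_apply]
  refine Finset.sum_eq_zero fun c _ => ?_
  rcases le_or_gt c a with h1 | h1
  · rw [act_mul, hz c (by omega), map_zero]
  · rw [S.tri1 hp hq h1, map_zero, LinearMap.zero_apply]

end act

end Pool.Agent.N166.LD
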