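import Pool.Agent.N166.LD.Stm
import Pool.Agent.N166.LD.Ring
import Pool.Agent.N174.OV.Fac
import Pool.Agent.X308.S.Key

/-!
# Chow-Kunneth decompositions satisfying hard Lefschetz for a given class
-/

set_option autoImplicit false

open CategoryTheory AlgebraicGeometry

universe u v w

namespace Pool.Agent.N166.LD

open Pool.Agent.H914 Pool.Agent.H914.VarClass Pool.Agent.H914.VarClass.Obj Pool.Agent.W492.BB
  Pool.Agent.W550.Corr Pool.Agent.TH133 Pool.Agent.Y107 Pool.Agent.N174.OV

set_option linter.unusedSectionVars false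

variable {k : Type u} [Field k] {𝒱 : VarClass k}

variable {C : TheoryData.{u, v, 0} 𝒱 ℚ} [hC : IsChowProj C] {X : 𝒱.Obj}
  {K : Type w} [Field K] {H : WeilTheoryData.{u, v, w} C K} [hH : IsWeilProj H]

include hC

/-- The ring of self-correspondences of degree zero commuting with `L`. -/
noncomputable def ZL (C : TheoryData.{u, v, 0} 𝒱 ℚ) [IsChowProj C] (X : 𝒱.Obj) (L : Cor C X) :
    Subring (Cor C X) := (cor0 C X).toSubring ⊓ Subring.centralizer {L}

omit hC in
lemma mem_ZL [IsChowProj C] {L c : Cor C X} : c ∈ ZL C X L ↔ c ∈ cor0 C X ∧ c * L = L * c := by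
  rw [ZL, Subring.mem_inf, Subring.mem_centralizer_iff]
  simp only [Set.mem_singleton_iff, forall_eq]
  exact ⟨fun h => ⟨h.1, h.2.symm⟩, fun h => ⟨h.1, h.2.symm⟩⟩

lemma commutes_iff {L c : Cor C X} : Commutes C (X := X) L c ↔ c ∈ ZL C X L := by
  rw [mem_ZL]
  exact ⟨fun h => ⟨h.deg, h.comm.symm⟩, fun h => ⟨h.1, h.2.symm⟩⟩

lemma raising_iff {L g : Cor C X} {π : ℕ → Cor C X} : IsRaising C (X := X) L π g ↔
    g ∈ ZL C X L ∧ ∀ a, π a * g * π a = π a := by
  constructor
  · intro h
    refine ⟨commutes_iff.1 h.comm, fun a => ?_⟩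
    rw [mul_assoc]
    exact h.diag a
  · intro h
    refine ⟨commutes_iff.2 h.1, fun a => ?_⟩
    have := h.2 a
    rw [mul_assoc] at this
    exact this

omit hC in
lemma sum_shift {R : Type*} [AddCommGroup R] {N : ℕ} (f : ℕ → R) (h0 : f 0 = 0) (h1 : f 1 = 0)
    (h2 : ∀ a, N < a → f a = 0) :
    ∑ a ∈ Finset.range (N + 1), f (a + 2) = ∑ a ∈ Finset.range (N + 1), f a := by
  have e1 : ∑ a ∈ Finset.range (N + 1 + 2), f a = ∑ a ∈ Finset.range (N + 1), f a := by
    rw [Finset.sum_range_succ, Finset.sum_range_succ, h2 (N + 1) (by omega),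
      h2 (N + 1 + 1) (by omega), add_zero, add_zero]
  have e2 : ∑ a ∈ Finset.range (N + 1 + 2), f a = ∑ a ∈ Finset.range (N + 1), f (a + 2) := by
    rw [Finset.sum_range_succ', Finset.sum_range_succ', h0, h1, add_zero, add_zero]
  rw [← e1, e2]

include hH

lemma dec_of_ck {π : ℕ → Cor C X} (h : IsCK H X π) : Dec (2 * X.dim) π := by
  refine ⟨h.out, h.idem, fun i j hij => ?_, h.sum⟩
  exact h.orth j i (Ne.symm hij)

lemma hom_ring {π : ℕ → Cor C X} {L : Cor C X} (h : IsLefschetz H X L π) (n : ℕ) :
    L * π n = π (n + 2) * L := h.lef.homogeneous n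

lemma low_ring {π : ℕ → Cor C X} {L : Cor C X} (h : IsLefschetz H X L π) {n : ℕ} (hn : n < 2) :
    π n * L = 0 := comp_low h.ck h.lef hn

lemma tri_ring {π ρ : ℕ → Cor C X} {L : Cor C X} (h : IsLefschetz H X L π)
    (h' : IsLefschetz H X L ρ) {c : Cor C X} (hc : c ∈ ZL C X L) {a b : ℕ} (hab : b < a) :
    ρ b * c * π a = 0 := by
  rw [mul_assoc]
  exact triangular h.ck h'.ck h.lef h'.lef (v := c) (mem_ZL.1 hc).2 (by omega)

lemma act_id {π : ℕ → Cor C X} (h : IsCK H X π) {g : Cor C X} (hg : g ∈ cor0 C X)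
    (hd : ∀ a, π a * g * π a = π a) (m : ℤ) {x : H.A X} (hx : x ∈ H.gr X m) :
    H.act (H.cl (X := X.prod X) g) x = x := by
  rcases lt_or_ge m 0 with hm | hm
  · rw [X308.S.hgr_neg hx hm, TheoryData.act_map_zero]
  · obtain ⟨a, rfl⟩ := Int.eq_ofNat_of_zero_le hm
    have h1 : actH C X H g x ∈ H.gr X (a : ℤ) :=
      X308.S.actH_deg (H := H) (X := X) (Y := X) hg hx (by ring)
    have h2 : actH C X H (π a) x = x := h.act_self a x hx
    have h3 : actH C X H (π a) (actH C X H g x) = actH C X H g x := h.act_self a _ h1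
    have h4 : actH C X H (π a * g * π a) x = actH C X H (π a) x := by rw [hd]
    rw [map_mul, map_mul, Module.End.mul_apply, Module.End.mul_apply, h2, h3] at h4
    exact h4

lemma tri_comp {π : ℕ → C.A (X.prod X)} {L : C.A (X.prod X)} (h : IsLefschetz H X L π)
    {c : C.A (X.prod X)} (hc : Commutes C L c) {a b : ℕ} (hab : b < a) :
    C.comp (C.comp (π a) c) (π b) = 0 :=
  triangular h.ck h.ck h.lef h.lef (v := c) hc.comm.symm (by omega)

omit hH in
/-- The product of three correspondences. -/
lemma three (a b c : Cor C X) : a * b * c = C.comp (X := X) (Y := X) (Z := X)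
    (C.comp (X := X) (Y := X) (Z := X) c b) a := mul_assoc a b c

omit hH in
lemma three_act (a b c : Cor C X) (z : C.A X) : actC C X (a * b * c) z =
    C.act (X := X) (Y := X) (C.comp (X := X) (Y := X) (Z := X)
      (C.comp (X := X) (Y := X) (Z := X) c b) a) z := by
  rw [three]; rfl

/-- The formal properties of the decompositions which satisfy hard Lefschetz for `L`. -/
theorem sys (X : 𝒱.Obj) (L : Cor C X) :
    Sys (2 * X.dim) (ZL C X L) (fun π => IsLefschetz H X L π) := by
  refine ⟨fun π h => dec_of_ck h.ck, fun π ρ h h' c hc a b hab => tri_ring h h' hc hab, ?_, ?_, ?_⟩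
  · intro π h c hc w
    have hcL : c * L = L * c := (mem_ZL.1 hc).2
    have hd : Dec (2 * X.dim) π := dec_of_ck h.ck
    refine mem_ZL.2 ⟨?_, ?_⟩
    · refine Subalgebra.sum_mem (cor0 C X) fun a _ => ?_
      have m1 : π (a + w) ∈ cor0 C X := h.ck.deg (a + w)
      have m2 : π a ∈ cor0 C X := h.ck.deg a
      have m3 : c ∈ cor0 C X := (mem_ZL.1 hc).1
      exact (cor0 C X).mul_mem ((cor0 C X).mul_mem m1 m3) m2
    · rw [Finset.sum_mul, Finset.mul_sum]
      have e : ∀ a, L * (π (a + w) * c * π a) = π (a + 2 + w) * c * π (a + 2) * L := by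
        intro a
        calc L * (π (a + w) * c * π a) = L * π (a + w) * c * π a := by simp only [mul_assoc]
          _ = π (a + 2 + w) * (L * c) * π a := by
              rw [hom_ring h, show a + w + 2 = a + 2 + w by ring]; simp only [mul_assoc]
          _ = π (a + 2 + w) * c * (L * π a) := by
              rw [← hcL]; simp only [mul_assoc]
          _ = π (a + 2 + w) * c * π (a + 2) * L := by rw [hom_ring h]; simp only [mul_assoc]
      simp only [e]
      refine (sum_shift (fun a => π (a + w) * c * π a * L) ?_ ?_ ?_).symm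
      · change π (0 + w) * c * π 0 * L = 0
        rw [mul_assoc, low_ring h (by norm_num), mul_zero]
      · change π (1 + w) * c * π 1 * L = 0
        rw [mul_assoc, low_ring h (by norm_num), mul_zero]
      · intro a ha
        change π (a + w) * c * π a * L = 0
        rw [hd.out a ha, mul_zero, zero_mul]
  · intro π ρ h h'
    have hd : Dec (2 * X.dim) π := dec_of_ck h.ck
    refine mem_ZL.2 ⟨?_, ?_⟩
    · refine Subalgebra.sum_mem (cor0 C X) fun a _ => ?_
      have m1 : ρ a ∈ cor0 C X := h'.ck.deg a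
      have m2 : π a ∈ cor0 C X := h.ck.deg a
      exact mul_mem m1 m2
    · rw [Finset.sum_mul, Finset.mul_sum]
      have e : ∀ a, L * (ρ a * π a) = ρ (a + 2) * π (a + 2) * L := by
        intro a
        calc L * (ρ a * π a) = L * ρ a * π a := by simp only [mul_assoc]
          _ = ρ (a + 2) * (L * π a) := by rw [hom_ring h']; simp only [mul_assoc]
          _ = ρ (a + 2) * π (a + 2) * L := by rw [hom_ring h]; simp only [mul_assoc]
      simp only [e]
      refine (sum_shift (fun a => ρ a * π a * L) ?_ ?_ ?_).symm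
      · change ρ 0 * π 0 * L = 0
        rw [mul_assoc, low_ring h (by norm_num), mul_zero]
      · change ρ 1 * π 1 * L = 0
        rw [mul_assoc, low_ring h (by norm_num), mul_zero]
      · intro a ha
        change ρ a * π a * L = 0
        rw [hd.out a ha, mul_zero, zero_mul]
  · intro π h g hg g' hg' e1 e2 hga hga'
    have hd := dec_of_ck h.ck
    have hgm := mem_ZL.1 hg
    have hgm' := mem_ZL.1 hg'
    have hcc : ∀ i j, (g * π i * g') * (g * π j * g') = g * (π i * π j) * g' := by
      intro i j
      calc (g * π i * g') * (g * π j * g') = g * π i * (g' * g) * (π j * g') := by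
            simp only [mul_assoc]
        _ = g * (π i * π j) * g' := by rw [e2, mul_one]; simp only [mul_assoc]
    have hpow : ∀ n : ℕ, L ^ n * g = g * L ^ n := fun n =>
      (show Commute L g from hgm.2.symm).pow_left n
    have hpow' : ∀ n : ℕ, L ^ n * g' = g' * L ^ n := fun n =>
      (show Commute L g' from hgm'.2.symm).pow_left n
    have hact : ∀ (i : ℕ) (m : ℤ) (x : H.A X), x ∈ H.gr X m →
        H.act (H.cl (X := X.prod X) (g * π i * g')) x = H.act (H.cl (X := X.prod X) (π i)) x := by
      intro i m x hx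
      change actH C X H (g * π i * g') x = actH C X H (π i) x
      rw [map_mul, map_mul, Module.End.mul_apply, Module.End.mul_apply]
      have h3 : actH C X H g' x = x := act_id h.ck hgm'.1 hga' m hx
      rw [h3]
      have h4 : actH C X H (π i) x ∈ H.gr X m :=
        X308.S.actH_deg (H := H) (X := X) (Y := X) (h.ck.deg i) hx (by ring)
      exact act_id h.ck hgm.1 hga m h4
    refine ⟨⟨?_, ?_, ?_, ?_, ?_, ?_, ?_⟩, ⟨?_, ?_⟩⟩
    · intro i
      exact (cor0 C X).mul_mem ((cor0 C X).mul_mem hgm.1 (h.ck.deg i)) hgm'.1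
    · intro i hi
      change g * π i * g' = 0
      rw [hd.out i hi, mul_zero, zero_mul]
    · intro i
      change (g * π i * g') * (g * π i * g') = g * π i * g'
      rw [hcc, hd.idem]
    · intro i j hij
      change (g * π j * g') * (g * π i * g') = 0
      rw [hcc, hd.orth j i (Ne.symm hij), mul_zero, zero_mul]
    · change ∑ i ∈ Finset.range (2 * X.dim + 1), g * π i * g' = (1 : Cor C X)
      rw [← Finset.sum_mul, ← Finset.mul_sum, hd.sum, mul_one, e1]
    · intro i a ha
      exact (hact i i a ha).trans (h.ck.act_self i a ha)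
    · intro i m a hm ha
      exact (hact i m a ha).trans (h.ck.act_ne i m a hm ha)
    · intro n
      change L * (g * π n * g') = g * π (n + 2) * g' * L
      calc L * (g * π n * g') = L * g * π n * g' := by simp only [mul_assoc]
        _ = g * (L * π n) * g' := by rw [← hgm.2]; simp only [mul_assoc]
        _ = g * π (n + 2) * (L * g') := by rw [hom_ring h]; simp only [mul_assoc]
        _ = g * π (n + 2) * g' * L := by rw [← hgm'.2]; simp only [mul_assoc]
    · intro n hn
      obtain ⟨θ, hθ, h1, h2⟩ := h.lef.iso n hn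
      let t : Cor C X := θ
      have h1' : t * (L ^ (X.dim - n) * π n) = π n := by
        have : C.comp (C.comp (π n) (corPow C (X := X) L (X.dim - n))) θ = π n := h1
        rw [corPow_eq] at this
        exact this
      have h2' : L ^ (X.dim - n) * (t * π (2 * X.dim - n)) = π (2 * X.dim - n) := by
        have : C.comp (C.comp (π (2 * X.dim - n)) θ) (corPow C (X := X) L (X.dim - n)) =
          π (2 * X.dim - n) := h2
        rw [corPow_eq] at this
        exact this
      refine ⟨(g * t * g' : Cor C X), ?_, ?_, ?_⟩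
      · exact X308.S.comp_deg (X := X) (Y := X) (Z := X) hgm'.1
          (X308.S.comp_deg (X := X) (Y := X) (Z := X) hθ hgm.1 rfl) (by ring)
      · have : (g * t * g') * (L ^ (X.dim - n) * (g * π n * g')) = g * π n * g' := by
          calc (g * t * g') * (L ^ (X.dim - n) * (g * π n * g'))
              = g * t * g' * (L ^ (X.dim - n) * g) * π n * g' := by simp only [mul_assoc]
            _ = g * t * (g' * g) * L ^ (X.dim - n) * π n * g' := by
                rw [hpow]; simp only [mul_assoc]
            _ = g * (t * (L ^ (X.dim - n) * π n)) * g' := by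
                rw [e2, mul_one]; simp only [mul_assoc]
            _ = g * π n * g' := by rw [h1']
        change C.comp (C.comp (g * π n * g' : Cor C X) (corPow C (X := X) L (X.dim - n)))
          (g * t * g' : Cor C X) = _
        rw [corPow_eq]
        exact this
      · have : L ^ (X.dim - n) * ((g * t * g') * (g * π (2 * X.dim - n) * g')) =
            g * π (2 * X.dim - n) * g' := by
          calc L ^ (X.dim - n) * ((g * t * g') * (g * π (2 * X.dim - n) * g'))
              = (L ^ (X.dim - n) * g) * t * (g' * g) * π (2 * X.dim - n) * g' := by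
                simp only [mul_assoc]
            _ = g * (L ^ (X.dim - n) * (t * π (2 * X.dim - n))) * g' := by
                rw [e2, hpow, mul_one]; simp only [mul_assoc]
            _ = g * π (2 * X.dim - n) * g' := by rw [h2']
        change C.comp (C.comp (g * π (2 * X.dim - n) * g' : Cor C X) (g * t * g' : Cor C X))
          (corPow C (X := X) L (X.dim - n)) = _
        rw [corPow_eq]
        exact this

/-- **Uniqueness up to raising automorphisms.** -/
theorem main1 {L : C.A (X.prod X)} {π : ℕ → C.A (X.prod X)} (h : IsLefschetz H X L π) :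
    (∀ c, Commutes C L c → ∀ a b, b < a → C.comp (C.comp (π a) c) (π b) = 0) ∧
    (∀ g, IsRaising C L π g → (∀ (m : ℤ) (x : H.A X), H.Deg m x → H.act (H.cl g) x = x) ∧
      ∃ g', IsRaising C L π g' ∧ C.comp g g' = dg C X ∧ C.comp g' g = dg C X ∧
        IsLefschetz H X L (fun m => C.comp (C.comp g' (π m)) g)) ∧
    (∀ π', IsLefschetz H X L π' →
      ∃! g, IsRaising C L π g ∧ ∀ m, C.comp (π m) g = C.comp g (π' m)) := by
  have S := sys (H := H) X L
  refine ⟨fun c hc a b hab => ?_, fun g hg => ?_, fun π' h' => ?_⟩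
  · exact tri_comp h hc hab
  · have hg1 := raising_iff.1 hg
    obtain ⟨g', hZ, e1, e2, hd⟩ := S.inverse h hg1.1 hg1.2
    refine ⟨fun m x hx => act_id h.ck (mem_ZL.1 hg1.1).1 hg1.2 m hx, g',
      raising_iff.2 ⟨hZ, hd⟩, e2, e1, ?_⟩
    let G : Cor C X := g
    let P : ℕ → Cor C X := π
    have e : (fun m => G * P m * g') = fun m => G * (P m * g') := by
      funext m
      exact mul_assoc G (P m) g'
    have h5 : IsLefschetz H X L (fun m => G * P m * g') :=
      S.conj π h g hg1.1 g' hZ e1 e2 hg1.2 hd
    rw [e] at h5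
    exact h5
  · obtain ⟨g, hg, h1, h2⟩ := S.mover h h'
    refine ⟨g, ⟨raising_iff.2 ⟨hg, h1⟩, h2⟩, ?_⟩
    rintro g₁ ⟨hg₁, h3⟩
    have hg₁' := raising_iff.1 hg₁
    rw [S.mover_unique h h' hg h1 h2]
    exact S.mover_unique h h' hg₁'.1 hg₁'.2 h3

/-- **Self-dual decompositions and isometries.** -/
theorem main2 {L : C.A (X.prod X)} {π : ℕ → C.A (X.prod X)} (h : IsLefschetz H X L π)
    (hL : tp C L = L) (hs : IsSelfDual C π) {π' : ℕ → C.A (X.prod X)}
    (h' : IsLefschetz H X L π') {g : C.A (X.prod X)} (hg : IsRaising C L π g)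
    (hgm : ∀ m, C.comp (π m) g = C.comp g (π' m)) :
    IsSelfDual C π' ↔ C.comp g (tp C g) = dg C X := by
  have S := sys (H := H) X L
  have hg1 := raising_iff.1 hg
  obtain ⟨g', hZ, e1, e2, hd'⟩ := S.inverse h hg1.1 hg1.2
  let G : Cor C X := g
  let P : ℕ → Cor C X := π
  let Q : ℕ → Cor C X := π'
  have hd : Dec (2 * X.dim) P := dec_of_ck h.ck
  replace e1 : G * g' = 1 := e1
  replace e2 : g' * G = 1 := e2
  have hgm' : ∀ m, G * P m = Q m * G := hgm
  have hP : ∀ m ≤ 2 * X.dim, tpR C X (P m) = P (2 * X.dim - m) := hs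
  have key : C.comp g (tp C g) = dg C X ↔ tpR C X G * G = 1 := Iff.rfl
  rw [key]
  have hdiag : ∀ a, P a * G * P a = P a := hg1.2
  constructor
  · intro hs'
    have hQ : ∀ m ≤ 2 * X.dim, tpR C X (Q m) = Q (2 * X.dim - m) := hs'
    have ht : tpR C X G ∈ ZL C X L := by
      refine mem_ZL.2 ⟨tpR_mem (mem_ZL.1 hg1.1).1, ?_⟩
      let L' : Cor C X := L
      have hL' : tpR C X L' = L' := hL
      have h3 : G * L' = L' * G := (mem_ZL.1 hg1.1).2
      have h4 := congrArg (tpR C X) h3
      rw [tpR_mul, tpR_mul, hL'] at h4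
      exact h4.symm
    have htq : ∀ m, tpR C X G * Q m = P m * tpR C X G := by
      intro m
      rcases le_or_gt m (2 * X.dim) with hm | hm
      · have h3 := congrArg (tpR C X) (hgm' (2 * X.dim - m))
        rw [tpR_mul, tpR_mul, hP _ (by omega), hQ _ (by omega),
          show 2 * X.dim - (2 * X.dim - m) = m by omega] at h3
        exact h3.symm
      · have e3 : Q m = 0 := (dec_of_ck h'.ck).out m hm
        have e4 : P m = 0 := hd.out m hm
        rw [e3, e4, mul_zero, zero_mul]
    have hcomm : ∀ m, tpR C X G * G * P m = P m * (tpR C X G * G) := by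
      intro m
      rw [mul_assoc, hgm', ← mul_assoc, htq, mul_assoc]
    have htd : ∀ a ≤ 2 * X.dim, P a * tpR C X G * P a = P a := by
      intro a ha
      have h3 := congrArg (tpR C X) (hdiag (2 * X.dim - a))
      rw [tpR_mul, tpR_mul, hP _ (by omega), show 2 * X.dim - (2 * X.dim - a) = a by omega,
        ← mul_assoc] at h3
      exact h3
    have hfin : ∀ a ∈ Finset.range (2 * X.dim + 1), tpR C X G * G * P a = P a := by
      intro a ha
      have ha' : a ≤ 2 * X.dim := by
        have := Finset.mem_range.1 ha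
        omega
      have h3 : tpR C X G * G * P a = P a * (tpR C X G * G) * P a := by
        rw [← hcomm, mul_assoc, mul_assoc, mul_assoc, hd.idem a]
      have h4 : P a * (tpR C X G * G) * P a = ∑ c ∈ Finset.range (2 * X.dim + 1),
          P a * tpR C X G * P c * (P c * G * P a) := by
        have : P a * (tpR C X G * G) * P a = P a * tpR C X G * 1 * (G * P a) := by
          simp only [mul_one, mul_assoc]
        rw [this, ← hd.sum, Finset.mul_sum, Finset.sum_mul]
        refine Finset.sum_congr rfl fun c _ => ?_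
        calc P a * tpR C X G * P c * (G * P a) = P a * tpR C X G * (P c * P c) * (G * P a) := by
              rw [hd.idem c]
          _ = P a * tpR C X G * P c * (P c * G * P a) := by simp only [mul_assoc]
      rw [h3, h4, Finset.sum_eq_single_of_mem a ha, htd a ha', hdiag, hd.idem a]
      intro c _ hc
      rcases lt_or_gt_of_ne hc with h6 | h6
      · rw [S.tri π π h h G hg1.1 a c h6, mul_zero]
      · rw [S.tri π π h h _ ht c a h6, zero_mul]
    calc tpR C X G * G = ∑ a ∈ Finset.range (2 * X.dim + 1), tpR C X G * G * P a :=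
          hd.sum_right _
      _ = ∑ a ∈ Finset.range (2 * X.dim + 1), P a := Finset.sum_congr rfl hfin
      _ = 1 := hd.sum
  · intro ht
    have h3 : tpR C X G = g' := by
      calc tpR C X G = tpR C X G * (G * g') := by rw [e1, mul_one]
        _ = g' := by rw [← mul_assoc, ht, one_mul]
    have h4 : tpR C X g' = G := by rw [← h3, tpR_tpR]
    have hq : ∀ m, Q m = G * P m * g' := by
      intro m
      rw [hgm', mul_assoc, e1, mul_one]
    intro m hm
    change tpR C X (Q m) = Q (2 * X.dim - m)
    rw [hq, hq, tpR_mul, tpR_mul, h3, h4, hP m hm, mul_assoc]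

lemma fil_iff {π : ℕ → C.A (X.prod X)} (h : IsCK H X π) (i n : ℕ) (z : C.A X) :
    z ∈ ckFil C π i n ↔ Fil (actC C X) (C.gr X i) (π : ℕ → Cor C X) (2 * i + 1 - n) z :=
  h.mem_ckFil i n z

/-- **Independence of one step of the filtration, uniqueness, the opposite filtration.** -/
theorem main3 {L : C.A (X.prod X)} {π : ℕ → C.A (X.prod X)} (h : IsLefschetz H X L π) :
    (∀ i n : ℕ, List.TFAE [∀ π', IsLefschetz H X L π' → ckFil C π' i n = ckFil C π i n,
      ∀ c, Commutes C L c → ∀ z ∈ ckFil C π i n, C.act c z ∈ ckFil C π i n,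
      ∀ c, Commutes C L c → ∀ a b, a + n ≤ 2 * i → 2 * i < b + n → ∀ z, C.Deg i z →
        C.act (C.comp (C.comp (π a) c) (π b)) z = 0]) ∧
    List.TFAE [∀ π', IsLefschetz H X L π' → π' = π,
      ∀ c, Commutes C L c → ∀ a b, a < b → C.comp (C.comp (π a) c) (π b) = 0,
      ∀ c, Commutes C L c → ∀ m, C.comp (π m) c = C.comp c (π m)] ∧
    (MurreB0 H (X.prod X) ∨ StrictlyLowers H X → ∀ π', IsLefschetz H X L π' → π' = π) ∧
    (∀ π', IsLefschetz H X L π' → ∀ (K : ℕ) (z : C.A X),
      (∀ a < K, C.act (π a) z = 0) ↔ ∀ a < K, C.act (π' a) z = 0) := by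
  have S := sys (H := H) X L
  have hU := S.unique_tfae h
  have u01 := hU.out 0 1
  have u12 := hU.out 1 2
  have u20 := hU.out 2 0
  have hU' : List.TFAE [∀ π', IsLefschetz H X L π' → π' = π,
      ∀ c, Commutes C L c → ∀ a b, a < b → C.comp (C.comp (π a) c) (π b) = 0,
      ∀ c, Commutes C L c → ∀ m, C.comp (π m) c = C.comp c (π m)] := by
    tfae_have 1 → 2 := by
      intro h1 c hc a b hab
      exact (three (π b) c (π a)).symm.trans (u01.1 h1 c (commutes_iff.1 hc) a b hab)
    tfae_have 2 → 3 := by
      intro h2 c hc m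
      exact u12.1 (fun c hc a b hab =>
        (three (π b) c (π a)).trans (h2 c (commutes_iff.2 hc) a b hab)) c (commutes_iff.1 hc) m
    tfae_have 3 → 1 := by
      intro h3
      exact u20.1 fun c hc m => h3 c (commutes_iff.2 hc) m
    tfae_finish
  refine ⟨fun i n => ?_, hU', fun hSL => ?_, fun π' h' K z => ⟨fun hz => ?_, fun hz => ?_⟩⟩
  · have hF := fil_tfae (actC C X) S (T := C.gr X i)
      (fun p hp a z hz => act_mem0 C (hp.ck.deg a) hz)
      (fun c hc z hz => act_mem0 C (mem_ZL.1 hc).1 hz) h (2 * i + 1 - n)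
    have f02 := hF.out 0 2
    have f21 := hF.out 2 1
    have f10 := hF.out 1 0
    tfae_have 1 → 3 := by
      intro h1 c hc a b ha hb z hz
      have h2 := f02.1 (fun q hq z => by
        rw [← fil_iff hq.ck, ← fil_iff h.ck, h1 q hq]) c (commutes_iff.1 hc) a b (by omega)
        (by omega) z hz
      exact (three_act (π b) c (π a) z).symm.trans h2
    tfae_have 3 → 2 := by
      intro h3 c hc z hz
      rw [fil_iff h.ck] at hz ⊢
      exact f21.1 (fun c hc a b ha hb z hz => (three_act (π b) c (π a) z).trans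
        (h3 c (commutes_iff.2 hc) a b (by omega) (by omega) z hz)) c (commutes_iff.1 hc) z hz
    tfae_have 2 → 1 := by
      intro h2 π' h'
      ext z
      rw [fil_iff h'.ck, fil_iff h.ck]
      refine f10.1 (fun c hc z hz => ?_) π' h' z
      rw [← fil_iff h.ck] at hz ⊢
      exact h2 c (commutes_iff.2 hc) z hz
    tfae_finish
  · have v10 := hU'.out 1 0
    refine v10.1 fun c hc a b hab => ?_
    rcases hSL with hB | hSL
    · exact comp_zero_of_B0 hB h.ck h.ck hc.deg (by omega)
    have hd := dec_of_ck h.ck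
    have hγ : C.Deg X.dim (C.comp (C.comp (π a) c) (π b)) :=
      comp_mem0 C (comp_mem0 C (h.ck.deg a) hc.deg) (h.ck.deg b)
    have h1 := hSL π h.ck _ hγ (X308.S.entry_zero h.ck h.ck hc.deg (by omega)) a b hab.le
    let P : ℕ → Cor C X := π
    let c' : Cor C X := c
    have h2 : P b * (P b * (c' * P a) * P a) = 0 := h1
    have h3 : P b * (P b * (c' * P a) * P a) = P b * (c' * P a) := by
      calc P b * (P b * (c' * P a) * P a) = (P b * P b) * (c' * (P a * P a)) := by
            simp only [mul_assoc]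
        _ = P b * (c' * P a) := by rw [hd.idem b, hd.idem a]
    rw [h3] at h2
    exact h2
  · exact opp (actC C X) S h h' K hz
  · exact opp (actC C X) S h' h K hz

end Pool.Agent.N166.LD
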