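import Pool.Agent.Y107.SDDefs

/-!
# Murre's conjecture (D) and injectivity of hard Lefschetz: definitions
-/

set_option autoImplicit false

open CategoryTheory AlgebraicGeometry

universe u v w

namespace Pool.Agent.N166.LD

open Pool.Agent.H914 Pool.Agent.H914.VarClass Pool.Agent.H914.VarClass.Obj Pool.Agent.W492.BB
  Pool.Agent.W550.Corr Pool.Agent.TH133 Pool.Agent.Y107

variable {k : Type u} [Field k] {𝒱 : VarClass k} {C : TheoryData.{u, v, 0} 𝒱 ℚ} {X : 𝒱.Obj}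
  {K : Type w} [Field K]

/-- The group `CH^i(X)_hom` of homologically trivial classes (they form a subspace, which is its own
span). -/
noncomputable def homPart (H : WeilTheoryData.{u, v, w} C K) (X : 𝒱.Obj) (i : ℤ) :
    Submodule ℚ (C.A X) :=
  Submodule.span ℚ {z | C.Deg i z ∧ H.cl z = 0}

/-- Conjecture (D) in codimension `i` for the Chow-Kunneth decomposition `π`:
`F^1 CH^i(X) = CH^i(X)_hom`. -/
def HoldsD (H : WeilTheoryData.{u, v, w} C K) (X : 𝒱.Obj) (π : ℕ → C.A (X.prod X)) (i : ℕ) : Prop :=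
  ckFil C π i 1 = homPart H X i

/-- The multiplication with `h^a` is injective on `S`. -/
def InjPow (C : TheoryData.{u, v, 0} 𝒱 ℚ) (h : C.A X) (a : ℕ) (S : Submodule ℚ (C.A X)) : Prop :=
  ∀ z ∈ S, h ^ a * z = 0 → z = 0

/-- The multiplication `h^(d+1-2i) : CH^i(X)_hom → CH^(d+1-i)(X)` is injective, `d = dim X`. -/
def InjectiveOnHom (H : WeilTheoryData.{u, v, w} C K) (X : 𝒱.Obj) (h : C.A X) (i : ℕ) : Prop :=
  InjPow C h (X.dim + 1 - 2 * i) (homPart H X i)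

/-- The multiplication `h^(d-2i) : CH^i(X) → CH^(d-i)(X)` is injective, `d = dim X`. -/
def InjectiveOnChow (C : TheoryData.{u, v, 0} 𝒱 ℚ) (X : 𝒱.Obj) (h : C.A X) (i : ℕ) : Prop :=
  InjPow C h (X.dim - 2 * i) (C.gr X i)

/-- The multiplication `h^(d+r-2i) : CH^i(X) → CH^(d+r-i)(X)` is surjective, `d = dim X`. -/
def SurjectiveOnChow (C : TheoryData.{u, v, 0} 𝒱 ℚ) (X : 𝒱.Obj) (h : C.A X) (r i : ℕ) : Prop :=
  ∀ w ∈ C.gr X ((X.dim : ℤ) + r - i), ∃ z ∈ C.gr X i, h ^ (X.dim + r - 2 * i) * z = w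

/-- The subspace `S` has the finite dimension `n`. -/
def HasRank (C : TheoryData.{u, v, 0} 𝒱 ℚ) (S : Submodule ℚ (C.A X)) (n : ℕ) : Prop :=
  FiniteDimensional ℚ S ∧ Module.finrank ℚ S = n

/-- `CH^i(X)_hom` and `CH^(d+1-i)(X)_hom` have the same finite rank, `2 i ≤ d + 1`, `d = dim X`. -/
def EqualRanks (H : WeilTheoryData.{u, v, w} C K) (X : 𝒱.Obj) : Prop :=
  ∀ i : ℕ, 2 * i ≤ X.dim + 1 → ∃ n, HasRank C (homPart H X i) n ∧
    HasRank C (homPart H X ((X.dim : ℤ) + 1 - i)) n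

end Pool.Agent.N166.LD
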